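import Mathlib
import Pool.Agent.Helper669.Forcing

/-!
# A principle about a family of sequences of rationals

The principle is stated twice: as a statement about actual objects (`Principle`), and as a
sentence of the forcing language of a preordered set `P` (`ForcedPrinciple`), see
`Pool.Agent.Helper669.Forcing` for the forcing language. The family is indexed by `Ω × ℕ`; the
first coordinate of an index is called its colour. Sequences are compared lexicographically.
-/

set_option autoImplicit false

namespace Pool.Agent.W914.SS

open Pool.Agent.Helper669.Forcing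

/-! ### The principle -/

/-- `a` is lexicographically smaller than `b`. -/
def LexLt (a b : ℕ → ℚ) : Prop := ∃ n, (∀ m < n, a m = b m) ∧ a n < b n

/-- The sequences `r x` (`x : Ω × ℕ`) are distinct, no function from `ℕ` to `Ω` is onto, the
family is mapped monotonically onto each nonempty subfamily, and each strictly increasing
relation `g` between members of the family relates only members of the same colour, apart from
members whose colour is less than some `δ`. -/
structure Principle (Ω : Type) [LinearOrder Ω] (r : Ω × ℕ → ℕ → ℚ) : Prop where
  distinct : ∀ x y, x ≠ y → ∃ n, r x n ≠ r y n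
  uncountable : ∀ E : ℕ → Ω, ∃ ω, ∀ n, E n ≠ ω
  surjective : ∀ K : Set (Ω × ℕ), (∃ x, x ∈ K) → ∃ F : Ω × ℕ → Ω × ℕ, (∀ x, F x ∈ K) ∧
    (∀ y ∈ K, ∃ x, F x = y) ∧
    ∀ x x', F x ≠ F x' → LexLt (r x) (r x') → LexLt (r (F x)) (r (F x'))
  colours : ∀ g : Ω × ℕ → Ω × ℕ → Prop,
    (∀ x x' y y', g x y → g x' y' → LexLt (r x) (r x') → LexLt (r y) (r y')) →
      ∃ δ : Ω, ∀ x y, x.1 ≠ y.1 → g x y → x.1 < δ

/-! ### The sentence of the forcing language -/

section

variable {P : Type} [Preorder P]

/-- The sequence named by `a` is lexicographically smaller than the one named by `b`. -/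
def FLexLt (a b : ℕ → ℚ → Set P) : Set P :=
  fex fun n : ℕ => fand
    (fall fun m : ℕ => fall fun _ : m < n => fall fun u : ℚ => fall fun v : ℚ =>
      fimp (fand (meets (a m u)) (meets (b m v))) (fground (u = v)))
    (fex fun u : ℚ => fex fun v : ℚ =>
      fand (fground (u < v)) (fand (meets (a n u)) (meets (b n v))))

/-- The sequences named by the `r x` are distinct. -/
def FDistinct {Ω : Type} (r : Ω × ℕ → ℕ → ℚ → Set P) : Set P :=
  fall fun x => fall fun y => fall fun _ : x ≠ y => fex fun n : ℕ => fex fun u : ℚ =>
    fex fun v : ℚ => fand (fground (u ≠ v)) (fand (meets (r x n u)) (meets (r y n v)))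

/-- No function from `ℕ` to `Ω` is onto. -/
def FUncountable (P : Type) [Preorder P] (Ω : Type) : Set P :=
  fall fun E : ℕ → Ω → Set P => fimp (IsFun E)
    (fex fun ω : Ω => fall fun n : ℕ => fnot (meets (E n ω)))

/-- The family is mapped monotonically onto each nonempty subfamily. -/
def FSurjective {Ω : Type} (r : Ω × ℕ → ℕ → ℚ → Set P) : Set P :=
  fall fun K : Ω × ℕ → Set P => fimp (fex fun x => meets (K x))
    (fex fun F : Ω × ℕ → Ω × ℕ → Set P => fand (IsFun F)
      (fand (fall fun x => fall fun y => fimp (meets (F x y)) (meets (K y)))
        (fand (fall fun y => fimp (meets (K y)) (fex fun x => meets (F x y)))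
          (fall fun x => fall fun x' => fall fun y => fall fun y' => fall fun _ : y ≠ y' =>
            fimp (fand (fand (meets (F x y)) (meets (F x' y'))) (FLexLt (r x) (r x')))
              (FLexLt (r y) (r y'))))))

/-- Each strictly increasing relation between members of the family relates only members of the
same colour, apart from members whose colour is less than some `δ`. -/
def FColours {Ω : Type} [LinearOrder Ω] (r : Ω × ℕ → ℕ → ℚ → Set P) : Set P :=
  fall fun g : Ω × ℕ → Ω × ℕ → Set P =>
    fimp (fall fun x => fall fun x' => fall fun y => fall fun y' =>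
      fimp (fand (fand (meets (g x y)) (meets (g x' y'))) (FLexLt (r x) (r x')))
        (FLexLt (r y) (r y')))
      (fex fun δ : Ω => fall fun x => fall fun y => fall fun _ : x.1 ≠ y.1 =>
        fimp (meets (g x y)) (fground (x.1 < δ)))

/-- The principle, as a sentence of the forcing language: there is a family `r` as in
`Principle`. -/
def ForcedPrinciple (P : Type) [Preorder P] (Ω : Type) [LinearOrder Ω] : Set P :=
  fex fun r : Ω × ℕ → ℕ → ℚ → Set P =>
    fand (fall fun x => IsFun (r x))
      (fand (FDistinct r) (fand (FUncountable P Ω) (fand (FSurjective r) (FColours r))))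

end

end Pool.Agent.W914.SS
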