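import Mathlib

/-!
# Finite sequences of rationals and decided lexicographic inequalities
-/

set_option autoImplicit false

namespace Pool.Agent.W914.SS

/-- `Lt s t`: at some place where both sequences are defined they differ, and at the first such
place the entry of `s` is smaller. -/
inductive Lt : List ℚ → List ℚ → Prop
  | head {a b : ℚ} (h : a < b) (s t : List ℚ) : Lt (a :: s) (b :: t)
  | tail (a : ℚ) {s t : List ℚ} (h : Lt s t) : Lt (a :: s) (a :: t)

namespace Lt

theorem irrefl : ∀ {s : List ℚ}, ¬ Lt s s := by
  intro s h
  induction s with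
  | nil => cases h
  | cons a s ih =>
    cases h with
    | head h => exact lt_irrefl _ h
    | tail _ h => exact ih h

theorem trans : ∀ {s t u : List ℚ}, Lt s t → Lt t u → Lt s u := by
  intro s t u h1
  induction h1 generalizing u with
  | head h s t =>
    intro h2
    cases h2 with
    | head h' => exact .head (h.trans h') _ _
    | tail _ h' => exact .head h _ _
  | tail a h ih =>
    intro h2
    cases h2 with
    | head h' => exact .head h' _ _
    | tail _ h' => exact .tail _ (ih h')

theorem asymm {s t : List ℚ} (h : Lt s t) : ¬ Lt t s := fun h' => irrefl (h.trans h')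

theorem mono : ∀ {s t s' t' : List ℚ}, Lt s t → s <+: s' → t <+: t' → Lt s' t' := by
  intro s t s' t' h
  induction h generalizing s' t' with
  | head h s t =>
    rintro ⟨u, rfl⟩ ⟨v, rfl⟩
    exact .head h _ _
  | tail a h ih =>
    rintro ⟨u, rfl⟩ ⟨v, rfl⟩
    exact .tail _ (ih ⟨u, rfl⟩ ⟨v, rfl⟩)

/-- prefixes of a common sequence are not separated -/
theorem not_of_prefix {s t u : List ℚ} (hs : s <+: u) (ht : t <+: u) : ¬ Lt s t := fun h =>
  irrefl (h.mono hs ht)

theorem left_ne_nil {s t : List ℚ} (h : Lt s t) : s ≠ [] := by
  cases h <;> simp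

theorem right_ne_nil {s t : List ℚ} (h : Lt s t) : t ≠ [] := by
  cases h <;> simp

theorem append_head {a b : ℚ} (h : a < b) (s : List ℚ) : Lt (s ++ [a]) (s ++ [b]) := by
  induction s with
  | nil => exact .head h _ _
  | cons c s ih => exact .tail _ ih

/-- the link with the entries -/
theorem iff_getElem {s t : List ℚ} : Lt s t ↔ ∃ (n : ℕ) (a b : ℚ), s[n]? = some a ∧ t[n]? = some b ∧ a < b ∧
    ∀ m < n, s[m]? = t[m]? := by
  constructor
  · intro h
    induction h with
    | @head a b h s t => exact ⟨0, a, b, by simp, by simp, h, by simp⟩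
    | @tail a s t h ih =>
      obtain ⟨n, b, c, h1, h2, h3, h4⟩ := ih
      refine ⟨n + 1, b, c, by simpa using h1, by simpa using h2, h3, ?_⟩
      intro m hm
      cases m with
      | zero => simp
      | succ m => simpa using h4 m (by omega)
  · rintro ⟨n, a, b, h1, h2, h3, h4⟩
    induction n generalizing s t with
    | zero =>
      cases s with
      | nil => simp at h1
      | cons x s =>
        cases t with
        | nil => simp at h2
        | cons y t =>
          simp at h1 h2
          subst h1 h2
          exact .head h3 _ _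
    | succ n ih =>
      cases s with
      | nil => simp at h1
      | cons x s =>
        cases t with
        | nil => simp at h2
        | cons y t =>
          have h0 := h4 0 (by omega)
          simp at h0
          subst h0
          refine .tail _ (ih (by simpa using h1) (by simpa using h2) ?_)
          intro m hm
          simpa using h4 (m + 1) (by omega)

/-- a new letter separates -/
theorem append_fresh : ∀ {s t : List ℚ} {a : ℚ}, a ∉ s → s <+: t ∨ Lt s (t ++ [a]) ∨
    Lt (t ++ [a]) s := by
  intro s t a ha
  induction s generalizing t with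
  | nil => exact .inl (List.nil_prefix)
  | cons b s ih =>
    have hab : a ≠ b := fun h => ha (by simp [h])
    have has : a ∉ s := fun h => ha (by simp [h])
    cases t with
    | nil =>
      rcases lt_or_gt_of_ne hab with h | h
      · exact .inr (.inr (.head h _ _))
      · exact .inr (.inl (.head h _ _))
    | cons c t =>
      rcases lt_trichotomy b c with h | h | h
      · exact .inr (.inl (.head h _ _))
      · subst h
        rcases ih (t := t) has with h | h | h
        · exact .inl ((List.cons_prefix_cons).2 ⟨rfl, h⟩)
        · exact .inr (.inl (.tail _ h))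
        · exact .inr (.inr (.tail _ h))
      · exact .inr (.inr (.head h _ _))

end Lt

theorem exists_below (B : List (List ℚ)) : ∃ c : ℚ, ∀ b ∈ B, c < b.headD 0 := by
  induction B with
  | nil => exact ⟨0, by simp⟩
  | cons b B ih =>
    obtain ⟨c, hc⟩ := ih
    refine ⟨min c (b.headD 0) - 1, fun b' hb' => ?_⟩
    rcases List.mem_cons.1 hb' with rfl | h
    · have := min_le_right c (b'.headD 0)
      linarith
    · have := min_le_left c (b.headD 0)
      have := hc _ h
      linarith

theorem exists_above (B : List (List ℚ)) : ∃ c : ℚ, ∀ b ∈ B, b.headD 0 < c := by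
  induction B with
  | nil => exact ⟨0, by simp⟩
  | cons b B ih =>
    obtain ⟨c, hc⟩ := ih
    refine ⟨max c (b.headD 0) + 1, fun b' hb' => ?_⟩
    rcases List.mem_cons.1 hb' with rfl | h
    · have := le_max_right c (b'.headD 0)
      linarith
    · have := le_max_left c (b.headD 0)
      have := hc _ h
      linarith

theorem exists_maxHead (A : List (List ℚ)) (h : A ≠ []) :
    ∃ a ∈ A, ∀ a' ∈ A, a'.headD 0 ≤ a.headD 0 := by
  have := Finset.exists_max_image A.toFinset (fun a => a.headD 0) (by
    obtain ⟨a, ha⟩ := List.exists_mem_of_ne_nil A h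
    exact ⟨a, by simpa using ha⟩)
  simpa using this

/-- the tails of the sequences which start with `m` -/
def tails (m : ℚ) (A : List (List ℚ)) : List (List ℚ) :=
  A.filterMap fun a => match a with
    | [] => none
    | x :: t => if x = m then some t else none

theorem mem_tails {m : ℚ} {A : List (List ℚ)} {t : List ℚ} : t ∈ tails m A ↔ m :: t ∈ A := by
  unfold tails
  rw [List.mem_filterMap]
  constructor
  · rintro ⟨a, ha, h⟩
    cases a with
    | nil => simp at h
    | cons x s =>
      simp only [Option.ite_none_right_eq_some, Option.some.injEq] at h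
      obtain ⟨rfl, rfl⟩ := h
      exact ha
  · intro h
    exact ⟨_, h, by simp⟩

/-- interpolation -/
theorem interpolate (A B : List (List ℚ)) (hA : ∀ a ∈ A, a ≠ []) (hB : ∀ b ∈ B, b ≠ [])
    (h : ∀ a ∈ A, ∀ b ∈ B, Lt a b) :
    ∃ u : List ℚ, u ≠ [] ∧ (∀ a ∈ A, Lt a u) ∧ (∀ b ∈ B, Lt u b) := by
  obtain ⟨n, hn⟩ : ∃ n, ∀ a ∈ A, a.length ≤ n := by
    refine ⟨(A.map List.length).sum, fun a ha => ?_⟩
    exact List.single_le_sum (by simp) _ (List.mem_map.2 ⟨a, ha, rfl⟩)
  have ha0 : A = [] → ∃ u : List ℚ, u ≠ [] ∧ (∀ a ∈ A, Lt a u) ∧ (∀ b ∈ B, Lt u b) := by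
    rintro rfl
    obtain ⟨c, hc⟩ := exists_below B
    refine ⟨[c], by simp, by simp, fun b hb => ?_⟩
    cases b with
    | nil => exact absurd rfl (hB _ hb)
    | cons x b => exact .head (by simpa using hc _ hb) _ _
  have hb0 : B = [] → ∃ u : List ℚ, u ≠ [] ∧ (∀ a ∈ A, Lt a u) ∧ (∀ b ∈ B, Lt u b) := by
    rintro rfl
    obtain ⟨c, hc⟩ := exists_above A
    refine ⟨[c], by simp, fun b hb => ?_, by simp⟩
    cases b with
    | nil => exact absurd rfl (hA _ hb)
    | cons x b => exact .head (by simpa using hc _ hb) _ _
  induction n generalizing A B with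
  | zero =>
    refine ha0 ?_
    rw [List.eq_nil_iff_forall_not_mem]
    intro a ha
    exact hA a ha (List.length_eq_zero_iff.1 (Nat.le_zero.1 (hn a ha)))
  | succ n ih =>
    by_cases hA0 : A = []
    · exact ha0 hA0
    by_cases hB0 : B = []
    · exact hb0 hB0
    obtain ⟨a0, ha0A, hmax⟩ := exists_maxHead A hA0
    obtain ⟨m, s0, rfl⟩ : ∃ m s0, a0 = m :: s0 := by
      cases a0 with
      | nil => exact absurd rfl (hA _ ha0A)
      | cons x b => exact ⟨_, _, rfl⟩
    simp only [List.headD_cons] at hmax
    have hBm : ∀ b ∈ B, m ≤ b.headD 0 := by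
      intro b hb
      have := h _ ha0A _ hb
      cases this with
      | head h => simpa using h.le
      | tail _ h => simp
    by_cases hcase : ∀ b ∈ B, m < b.headD 0
    · obtain ⟨c, hmc, hc⟩ : ∃ c, m < c ∧ ∀ b ∈ B, c < b.headD 0 := by
        clear ih hb0 hA hB h hBm ha0 hB0
        induction B with
        | nil => exact ⟨m + 1, by linarith, by simp⟩
        | cons b B ih =>
          obtain ⟨c, hmc, hc⟩ := ih (fun b hb => hcase b (List.mem_cons_of_mem _ hb))
          obtain ⟨d, hd1, hd2⟩ := exists_between (lt_min hmc (hcase b (by simp)))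
          refine ⟨d, hd1, fun b' hb' => ?_⟩
          rcases List.mem_cons.1 hb' with rfl | h
          · exact hd2.trans_le (min_le_right _ _)
          · exact (hd2.trans_le (min_le_left _ _)).trans (hc _ h)
      refine ⟨[c], by simp, fun a ha => ?_, fun b hb => ?_⟩
      · cases a with
        | nil => exact absurd rfl (hA _ ha)
        | cons x b => exact .head ((hmax _ ha).trans_lt hmc) _ _
      · cases b with
        | nil => exact absurd rfl (hB _ hb)
        | cons x b => exact .head (hc _ hb) _ _
    · push Not at hcase
      obtain ⟨b0, hb0B, hb0m⟩ := hcase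
      obtain ⟨t0, rfl⟩ : ∃ t0, b0 = m :: t0 := by
        cases b0 with
        | nil => exact absurd rfl (hB _ hb0B)
        | cons x b =>
          have h1 : (x :: b).headD 0 = m := le_antisymm hb0m (hBm _ hb0B)
          simp only [List.headD_cons] at h1
          exact ⟨b, by rw [h1]⟩
      have htl : ∀ a ∈ tails m A, ∀ b ∈ tails m B, Lt a b := by
        intro a ha b hb
        rw [mem_tails] at ha hb
        cases h _ ha _ hb with
        | head h => exact absurd h (lt_irrefl _)
        | tail _ h => exact h
      obtain ⟨u, hu0, hu1, hu2⟩ := ih (tails m A) (tails m B)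
        (fun a ha => (htl a ha t0 (mem_tails.2 hb0B)).left_ne_nil)
        (fun b hb => (htl s0 (mem_tails.2 ha0A) b hb).right_ne_nil) htl
        (fun a ha => by
          have := hn _ (mem_tails.1 ha)
          simpa using this)
        (fun h => absurd (mem_tails.2 ha0A) (by rw [h]; simp))
        (fun h => absurd (mem_tails.2 hb0B) (by rw [h]; simp))
      refine ⟨m :: u, by simp, fun a ha => ?_, fun b hb => ?_⟩
      · cases a with
        | nil => exact absurd rfl (hA _ ha)
        | cons x b =>
          rcases (hmax _ ha).lt_or_eq with h | h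
          · exact .head (by simpa using h) _ _
          · simp only [List.headD_cons] at h
            subst h
            exact .tail _ (hu1 _ (mem_tails.2 ha))
      · cases b with
        | nil => exact absurd rfl (hB _ hb)
        | cons x b =>
          rcases (hBm _ hb).lt_or_eq with h | h
          · exact .head (by simpa using h) _ _
          · simp only [List.headD_cons] at h
            subst h
            exact .tail _ (hu2 _ (mem_tails.2 hb))

theorem interpolate_set (A B : Set (List ℚ)) (hAf : A.Finite) (hBf : B.Finite)
    (hA : ∀ a ∈ A, a ≠ []) (hB : ∀ b ∈ B, b ≠ []) (h : ∀ a ∈ A, ∀ b ∈ B, Lt a b) :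
    ∃ u : List ℚ, u ≠ [] ∧ (∀ a ∈ A, Lt a u) ∧ (∀ b ∈ B, Lt u b) := by
  have := interpolate hAf.toFinset.toList hBf.toFinset.toList (by simpa using hA)
    (by simpa using hB) (by simpa using h)
  simpa using this

end Pool.Agent.W914.SS
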