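import Mathlib
import Pool.Agent.W914.SS.Defs

/-!
# The lexicographic order on sequences of rationals embeds into the real line
-/

set_option autoImplicit false

open Classical

namespace Pool.Agent.W914.SS

theorem LexLt.irrefl {a : ℕ → ℚ} : ¬ LexLt a a := fun ⟨_, _, h⟩ => lt_irrefl _ h

theorem LexLt.trans {a b c : ℕ → ℚ} (h1 : LexLt a b) (h2 : LexLt b c) : LexLt a c := by
  obtain ⟨n, hn, hn'⟩ := h1
  obtain ⟨m, hm, hm'⟩ := h2
  rcases lt_trichotomy n m with h | h | h
  · exact ⟨n, fun k hk => (hn k hk).trans (hm k (hk.trans h)), by rw [← hm n h]; exact hn'⟩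
  · subst h
    exact ⟨n, fun k hk => (hn k hk).trans (hm k hk), hn'.trans hm'⟩
  · exact ⟨m, fun k hk => (hn k (hk.trans h)).trans (hm k hk), by rw [hn m h]; exact hm'⟩

theorem LexLt.asymm {a b : ℕ → ℚ} (h1 : LexLt a b) : ¬ LexLt b a := fun h2 => (h1.trans h2).irrefl

theorem lexLt_total {a b : ℕ → ℚ} (h : ∃ n, a n ≠ b n) : LexLt a b ∨ LexLt b a := by
  have h1 := Nat.find_spec h
  have h2 : ∀ m < Nat.find h, a m = b m := fun m hm => not_not.1 (Nat.find_min h hm)
  rcases lt_or_gt_of_ne h1 with h3 | h3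
  · exact .inl ⟨_, h2, h3⟩
  · exact .inr ⟨_, fun m hm => (h2 m hm).symm, h3⟩

/-- the sequence continued by zeros -/
def pad (s : List ℚ) (n : ℕ) : ℚ := s.getD n 0

theorem exists_pad_between {a b : ℕ → ℚ} (h : LexLt a b) : ∃ s, ¬ LexLt (pad s) a ∧ LexLt (pad s) b := by
  obtain ⟨n, hn, hn'⟩ := h
  obtain ⟨c, hc1, hc2⟩ := exists_between hn'
  have h1 : ∀ m < n, pad ((List.range n).map a ++ [c]) m = a m := by
    intro m hm
    simp only [pad, List.getD_eq_getElem?_getD]
    rw [List.getElem?_append_left (by simpa using hm)]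
    simp [hm]
  have h2 : pad ((List.range n).map a ++ [c]) n = c := by
    simp [pad, List.getD_eq_getElem?_getD]
  refine ⟨(List.range n).map a ++ [c], ?_, ⟨n, fun m hm => ?_, ?_⟩⟩
  · refine LexLt.asymm ⟨n, fun m hm => (h1 m hm).symm, ?_⟩
    rw [h2]; exact hc1
  · rw [h1 m hm, hn m hm]
  · rw [h2]; exact hc2

/-- the embedding -/
theorem exists_embedding : ∃ f : (ℕ → ℚ) → ℝ, ∀ a b, LexLt a b → f a < f b := by
  obtain ⟨e, he⟩ := exists_surjective_nat (List ℚ)
  have hs : Summable fun n : ℕ => ((1 : ℝ) / 2) ^ n := summable_geometric_two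
  refine ⟨fun a => ∑' n, if LexLt (pad (e n)) a then ((1 : ℝ) / 2) ^ n else 0, fun a b hab => ?_⟩
  obtain ⟨s, hs1, hs2⟩ := exists_pad_between hab
  obtain ⟨n, rfl⟩ := he s
  refine Summable.tsum_lt_tsum_of_nonneg (i := n) ?_ ?_ ?_ ?_
  · intro m
    split_ifs
    · positivity
    · exact le_rfl
  · intro m
    split_ifs with h1 h2 h2
    · exact le_rfl
    · exact absurd (h1.trans hab) h2
    · positivity
    · exact le_rfl
  · rw [if_neg hs1, if_pos hs2]
    positivity
  · refine Summable.of_nonneg_of_le (fun m => ?_) (fun m => ?_) hs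
    · split_ifs
      · positivity
      · exact le_rfl
    · split_ifs
      · exact le_rfl
      · positivity

end Pool.Agent.W914.SS
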