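import Mathlib
import Pool.Agent.W914.SS.Lex

/-!
# The consequence of the principle for linear orders
-/

set_option autoImplicit false

open Classical Cardinal

namespace Pool.Agent.W914.SS

/-- `L` is strongly surjective: it is mapped monotonically onto each nonempty suborder `K`. -/
def StronglySurjective (L : Type) [LinearOrder L] : Prop :=
  ∀ K : Set L, K.Nonempty → ∃ f : L → K, Monotone f ∧ Function.Surjective f

/-- `M` is an uncountable order which is minimal: it embeds into each uncountable suborder. -/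
def IsMinimalOrder (M : Type) [LinearOrder M] : Prop :=
  Uncountable M ∧ ∀ K : Set M, ¬ K.Countable → ∃ f : M → K, StrictMono f

theorem exists_order_of_principle {Ω : Type} [LinearOrder Ω] (hi : ∀ b : Ω, (Set.Iio b).Countable)
    {r : Ω × ℕ → ℕ → ℚ} (h : Principle Ω r) :
    ∃ L : Set ℝ, Uncountable L ∧ StronglySurjective L ∧ ∀ M : Set L, ¬ IsMinimalOrder M := by
  obtain ⟨f, hf⟩ := exists_embedding
  have hlt : ∀ x y, LexLt (r x) (r y) ↔ f (r x) < f (r y) := by
    intro x y
    constructor
    · exact hf _ _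
    · intro h1
      rcases eq_or_ne x y with h2 | h2
      · rw [h2] at h1; exact absurd h1 (lt_irrefl _)
      · rcases lexLt_total (h.distinct x y h2) with h3 | h3
        · exact h3
        · exact absurd (hf _ _ h3) h1.asymm
  have hinj : Function.Injective fun x => f (r x) := by
    intro x y hxy
    by_contra hne
    rcases lexLt_total (h.distinct x y hne) with h3 | h3
    · exact absurd (hf _ _ h3) (by simp only at hxy; rw [hxy]; exact lt_irrefl _)
    · exact absurd (hf _ _ h3) (by simp only at hxy; rw [hxy]; exact lt_irrefl _)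
  let L : Set ℝ := Set.range fun x => f (r x)
  let e : Ω × ℕ ≃ L := Equiv.ofInjective _ hinj
  have he : ∀ x y, e x < e y ↔ LexLt (r x) (r y) := fun x y => (hlt x y).symm
  obtain ⟨ω0, -⟩ := h.colours (fun _ _ => False) (by simp)
  have hΩ : ¬ (Set.univ : Set Ω).Countable := by
    intro hc
    obtain ⟨E, hE⟩ := (Set.countable_iff_exists_surjective (s := (Set.univ : Set Ω))
      ⟨ω0, trivial⟩).1 hc
    obtain ⟨ω, hω⟩ := h.uncountable fun n => (E n).1
    obtain ⟨n, hn⟩ := hE ⟨ω, trivial⟩
    exact hω n (by rw [hn])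
  refine ⟨L, ?_, ?_, ?_⟩
  · rw [← not_countable_iff]
    intro hc
    apply hΩ
    have h1 : Function.Injective fun ω : Ω => e (ω, 0) := fun ω ω' h => by
      simpa using e.injective h
    exact Set.countable_univ_iff.2 h1.countable
  · intro K hK
    obtain ⟨⟨k0, hk0⟩⟩ := hK.to_subtype
    obtain ⟨F, hF1, hF2, hF3⟩ := h.surjective {x | e x ∈ K} ⟨e.symm k0, by simpa using hk0⟩
    refine ⟨fun l => ⟨e (F (e.symm l)), hF1 _⟩, ?_, ?_⟩
    · intro l l' hll
      rcases eq_or_lt_of_le hll with h1 | h1
      · rw [h1]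
      · by_cases h2 : F (e.symm l) = F (e.symm l')
        · simp only [h2, le_refl]
        · have h3 : LexLt (r (e.symm l)) (r (e.symm l')) := by
            rw [← he]; simpa using h1
          have h4 := hF3 _ _ h2 h3
          rw [← he] at h4
          exact le_of_lt h4
    · rintro ⟨k, hk⟩
      obtain ⟨x, hx⟩ := hF2 (e.symm k) (by simpa using hk)
      refine ⟨e x, ?_⟩
      simp [hx]
  · rintro M ⟨hM, hmin⟩
    let M' : Set (Ω × ℕ) := {x | e x ∈ M}
    have hM' : ¬ M'.Countable := by
      intro hc
      rw [← not_countable_iff] at hM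
      apply hM
      have h1 : Function.Injective fun m : M => (⟨e.symm m.1, by simp [M']⟩ : M') := by
        intro m m' hmm
        simpa [Subtype.ext_iff] using hmm
      have := hc.to_subtype
      exact h1.countable
    have hC : ¬ (Prod.fst '' M').Countable := by
      intro hc
      apply hM'
      have h1 : M' ⊆ (Prod.fst '' M') ×ˢ (Set.univ : Set ℕ) := fun x hx => ⟨⟨x, hx, rfl⟩, trivial⟩
      exact (hc.prod Set.countable_univ).mono h1
    obtain ⟨t, u, htu, hdis, hcard⟩ := Set.Infinite.exists_union_disjoint_cardinal_eq_of_infinite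
      (s := Prod.fst '' M') (fun hfin => hC hfin.countable)
    have ht : ¬ t.Countable := by
      intro hc
      have hu : u.Countable := by
        rw [← Cardinal.le_aleph0_iff_set_countable] at hc ⊢
        rwa [← hcard]
      exact hC (htu ▸ hc.union hu)
    have hu : ¬ u.Countable := by
      intro hc
      apply ht
      rw [← Cardinal.le_aleph0_iff_set_countable] at hc ⊢
      rwa [hcard]
    obtain ⟨g, hg⟩ := hmin {m | (e.symm m.1).1 ∈ t} (by
      intro hc
      apply ht
      have h1 : t ⊆ (fun m : M => (e.symm m.1).1) '' {m | (e.symm m.1).1 ∈ t} := by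
        intro c hc
        obtain ⟨x, hx, hxc⟩ : c ∈ Prod.fst '' M' := htu ▸ Or.inl hc
        refine ⟨⟨e x, hx⟩, ?_, ?_⟩
        · simpa [hxc] using hc
        · simpa using hxc
      exact (hc.image _).mono h1)
    obtain ⟨δ, hδ⟩ := h.colours (fun x y => ∃ hx : e x ∈ M, e y = (g ⟨e x, hx⟩).1.1) (by
      rintro x x' y y' ⟨hx, hy⟩ ⟨hx', hy'⟩ hxx
      rw [← he, hy, hy']
      rw [← he] at hxx
      exact hg (show (⟨e x, hx⟩ : M) < ⟨e x', hx'⟩ from hxx))
    obtain ⟨c, hcu, hcδ⟩ : ∃ c ∈ u, ¬ c < δ := by
      by_contra hcon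
      push Not at hcon
      exact hu ((hi δ).mono fun c hc => hcon c hc)
    obtain ⟨x, hx, hxc⟩ : c ∈ Prod.fst '' M' := htu ▸ Or.inr hcu
    have hxM : e x ∈ M := hx
    have h1 := hδ x (e.symm (g ⟨e x, hxM⟩).1.1) (by
      intro heq
      have h2 := (g ⟨e x, hxM⟩).2
      simp only [Set.mem_ofPred_eq] at h2
      rw [← heq, hxc] at h2
      exact Set.disjoint_left.1 hdis h2 hcu) ⟨hxM, by simp⟩
    exact hcδ (hxc ▸ h1)

end Pool.Agent.W914.SS
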